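import Mathlib
import Pool.Agent.Helper97.RE.Paths
import Pool.Agent.Helper55.JS.Defs

/-!
# Project SP2 (MP_03a1f6_co, Janzer's conjecture on blowups of spiders): definitions

Everything is classical: no `DecidableEq` or `DecidableRel` arguments in this project.
-/

set_option autoImplicit false

namespace Pool.Agent.Helper14.SP

open Finset Classical
open Pool.Agent.Helper97.RE (IsPath Rich PP Clean Cb)

/-- objects: a centre and a family of legs (as functions on `ℕ`) -/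
abbrev Obj (ι V : Type) : Type := V × (ι → ℕ → V)

/-- the legs of lengths `i c` are disjoint paths starting at the centre -/
structure Sp {ι V : Type} (G : SimpleGraph V) (i : ι → ℕ) (x : Obj ι V) : Prop where
  start : ∀ c, x.2 c 0 = x.1
  adj : ∀ c m, m < i c → G.Adj (x.2 c m) (x.2 c (m + 1))
  inj : ∀ c c' m m', 1 ≤ m → m ≤ i c → m' ≤ i c' → x.2 c m = x.2 c' m' → c = c' ∧ m = m'

/-- truncation of leg `c` at level `i c` (canonical: constant from there on) -/
def tr {ι V : Type} (i : ι → ℕ) (x : Obj ι V) : Obj ι V := (x.1, fun c m => x.2 c (min m (i c)))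

/-- the ends of the legs -/
def ends {ι V : Type} (i : ι → ℕ) (x : Obj ι V) : ι → V := fun c => x.2 c (i c)

/-- the type with the last vertex of leg `l` removed -/
noncomputable def dn {ι : Type} (i : ι → ℕ) (l : ι) : ι → ℕ := Function.update i l (i l - 1)

/-- the centre and the inner vertices -/
noncomputable def inn {ι V : Type} [Fintype ι] (i : ι → ℕ) (x : Obj ι V) : Finset V :=
  insert x.1 (univ.biUnion fun c => (Ico 1 (i c)).image (x.2 c))

/-- all vertices -/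
noncomputable def vs {ι V : Type} [Fintype ι] (i : ι → ℕ) (x : Obj ι V) : Finset V :=
  insert x.1 (univ.biUnion fun c => (range (i c + 1)).image (x.2 c))

/-- canonical walk systems of type `j` (no injectivity) -/
structure Wk {ι V : Type} (G : SimpleGraph V) (j : ι → ℕ) (x : Obj ι V) : Prop where
  can : tr j x = x
  start : ∀ c, x.2 c 0 = x.1
  adj : ∀ c m, m < j c → G.Adj (x.2 c m) (x.2 c (m + 1))

/-- disjoint legs of lengths `J f` from `u` to the roots `z f` with inner vertices off `Z` -/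
def Ext {F V : Type} (G : SimpleGraph V) (J : F → ℕ) (z : F → V) (u : V) (Z : Finset V) : Prop :=
  ∃ x : Obj F V, x.1 = u ∧ Sp G J x ∧ (∀ f, x.2 f (J f) = z f) ∧
    ∀ f m, 1 ≤ m → m < J f → x.2 f m ∉ Z

/-- `X` is a flexible tuple of roots -/
def Flex {ι V : Type} (G : SimpleGraph V) (j : ι → ℕ) (N : ℕ) (X : ι → V) : Prop :=
  ∀ Z : Finset V, #Z ≤ N → (∀ c, X c ∉ Z) → ∃ x : Obj ι V, Sp G j x ∧ (∀ c, x.2 c (j c) = X c) ∧
    x.1 ∉ Z ∧ ∀ c m, 1 ≤ m → m < j c → x.2 c m ∉ Z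

/-- clean paths, as functions on `ℕ` -/
def Cln {V : Type} (G : SimpleGraph V) (L : ℕ) (R : ℕ → ℕ) (n : ℕ) (p : ℕ → V) : Prop :=
  ∀ o m, o + m ≤ n → 2 ≤ m → m ≤ L → ¬ Rich G m (R m) (p o) (p (o + m))

/-- `x` is a canonical copy with clean legs and clean 2-windows at the centre -/
structure Good {ι V : Type} (G : SimpleGraph V) (L : ℕ) (R : ℕ → ℕ) (j : ι → ℕ)
    (x : Obj ι V) : Prop where
  can : tr j x = x
  sp : Sp G j x
  cln : ∀ c, Cln G L R (j c) (x.2 c)
  win : ∀ c c', c ≠ c' → ¬ Rich G 2 (R 2) (x.2 c 1) (x.2 c' 1)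

/-! ## Basic lemmas -/

section basic

variable {ι V : Type}

@[simp] theorem tr_fst (i : ι → ℕ) (x : Obj ι V) : (tr i x).1 = x.1 := rfl

theorem tr_snd (i : ι → ℕ) (x : Obj ι V) (c : ι) (m : ℕ) : (tr i x).2 c m = x.2 c (min m (i c)) :=
  rfl

theorem tr_snd_le {i : ι → ℕ} (x : Obj ι V) {c : ι} {m : ℕ} (h : m ≤ i c) :
    (tr i x).2 c m = x.2 c m := by rw [tr_snd, min_eq_left h]

theorem tr_tr {i j : ι → ℕ} (h : ∀ c, i c ≤ j c) (x : Obj ι V) : tr i (tr j x) = tr i x := by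
  refine Prod.ext rfl ?_
  funext c m
  change x.2 c (min (min m (i c)) (j c)) = x.2 c (min m (i c))
  rw [min_eq_left ((min_le_right _ _).trans (h c))]

theorem tr_idem (i : ι → ℕ) (x : Obj ι V) : tr i (tr i x) = tr i x := tr_tr (fun _ => le_rfl) x

@[simp] theorem ends_tr (i : ι → ℕ) (x : Obj ι V) : ends i (tr i x) = ends i x := by
  funext c
  simp [ends, tr_snd]

theorem tr_eq_iff {i : ι → ℕ} {x y : Obj ι V} :
    tr i x = tr i y ↔ x.1 = y.1 ∧ ∀ c m, m ≤ i c → x.2 c m = y.2 c m := by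
  constructor
  · intro h
    have h0 : (tr i x).1 = (tr i y).1 := by rw [h]
    refine ⟨h0, fun c m hm => ?_⟩
    rw [← tr_snd_le x hm, ← tr_snd_le y hm, h]
  · rintro ⟨h1, h2⟩
    refine Prod.ext h1 ?_
    funext c m
    exact h2 c _ (min_le_right _ _)

theorem Sp.mono {G : SimpleGraph V} {i j : ι → ℕ} {x : Obj ι V} (h : Sp G j x)
    (hij : ∀ c, i c ≤ j c) : Sp G i x where
  start := h.start
  adj c m hm := h.adj c m (hm.trans_le (hij c))
  inj c c' m m' h1 h2 h3 h4 := h.inj c c' m m' h1 (h2.trans (hij c)) (h3.trans (hij c')) h4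

theorem Sp.congr {G : SimpleGraph V} {i : ι → ℕ} {x y : Obj ι V} (h : Sp G i x)
    (h1 : y.1 = x.1) (h2 : ∀ c m, m ≤ i c → y.2 c m = x.2 c m) : Sp G i y where
  start c := by rw [h2 c 0 (Nat.zero_le _), h.start c, h1]
  adj c m hm := by
    rw [h2 c m hm.le, h2 c (m + 1) hm]
    exact h.adj c m hm
  inj c c' m m' hm1 hm hm' he := by
    rw [h2 c m hm, h2 c' m' hm'] at he
    exact h.inj c c' m m' hm1 hm hm' he

theorem Sp.tr {G : SimpleGraph V} {i : ι → ℕ} {x : Obj ι V} (h : Sp G i x) :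
    Sp G i (tr i x) :=
  h.congr rfl fun _ _ hm => tr_snd_le x hm

/-- no vertex of a leg is the centre -/
theorem Sp.ne_centre {G : SimpleGraph V} {i : ι → ℕ} {x : Obj ι V} (h : Sp G i x) {c : ι} {m : ℕ}
    (h1 : 1 ≤ m) (h2 : m ≤ i c) : x.2 c m ≠ x.1 := by
  intro he
  rw [← h.start c] at he
  have := (h.inj c c m 0 h1 h2 (Nat.zero_le _) he).2
  omega

theorem Sp.inj_leg {G : SimpleGraph V} {i : ι → ℕ} {x : Obj ι V} (h : Sp G i x) {c : ι}
    {m m' : ℕ} (h1 : m ≤ i c) (h2 : m' ≤ i c) (he : x.2 c m = x.2 c m') : m = m' := by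
  rcases Nat.eq_zero_or_pos m with h0 | h0
  · rcases Nat.eq_zero_or_pos m' with h0' | h0'
    · omega
    · exact ((h.inj c c m' m h0' h2 h1 he.symm).2).symm
  · exact (h.inj c c m m' h0 h1 h2 he).2

variable [Fintype ι]

theorem mem_inn {i : ι → ℕ} {x : Obj ι V} {v : V} :
    v ∈ inn i x ↔ v = x.1 ∨ ∃ c m, 1 ≤ m ∧ m < i c ∧ x.2 c m = v := by
  unfold inn
  simp only [mem_insert, mem_biUnion, mem_univ, true_and, mem_image, mem_Ico]
  constructor
  · rintro (h | ⟨c, m, ⟨h1, h2⟩, h3⟩)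
    · exact Or.inl h
    · exact Or.inr ⟨c, m, h1, h2, h3⟩
  · rintro (h | ⟨c, m, h1, h2, h3⟩)
    · exact Or.inl h
    · exact Or.inr ⟨c, m, ⟨h1, h2⟩, h3⟩

theorem mem_vs {i : ι → ℕ} {x : Obj ι V} {v : V} :
    v ∈ vs i x ↔ v = x.1 ∨ ∃ c m, m ≤ i c ∧ x.2 c m = v := by
  unfold vs
  simp only [mem_insert, mem_biUnion, mem_univ, true_and, mem_image, mem_range, Nat.lt_succ_iff]

theorem card_inn_le (i : ι → ℕ) (x : Obj ι V) : #(inn i x) ≤ ∑ c, i c + 1 := by
  unfold inn
  refine (card_insert_le _ _).trans (Nat.add_le_add_right ?_ 1)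
  refine card_biUnion_le.trans (sum_le_sum fun c _ => ?_)
  refine card_image_le.trans ?_
  rw [Nat.card_Ico]
  omega

theorem card_vs_le (i : ι → ℕ) (x : Obj ι V) : #(vs i x) ≤ ∑ c, (i c + 1) + 1 := by
  unfold vs
  refine (card_insert_le _ _).trans (Nat.add_le_add_right ?_ 1)
  refine card_biUnion_le.trans (sum_le_sum fun c _ => ?_)
  refine card_image_le.trans ?_
  rw [card_range]

theorem inn_tr (i : ι → ℕ) (x : Obj ι V) : inn i (tr i x) = inn i x := by
  ext v
  rw [mem_inn, mem_inn]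
  constructor
  · rintro (h | ⟨c, m, h1, h2, h3⟩)
    · exact Or.inl h
    · exact Or.inr ⟨c, m, h1, h2, by rwa [tr_snd_le x h2.le] at h3⟩
  · rintro (h | ⟨c, m, h1, h2, h3⟩)
    · exact Or.inl h
    · exact Or.inr ⟨c, m, h1, h2, by rwa [tr_snd_le x h2.le]⟩

theorem inn_subset_vs (i : ι → ℕ) (x : Obj ι V) : inn i x ⊆ vs i x := by
  intro v hv
  rw [mem_inn] at hv
  rw [mem_vs]
  rcases hv with h | ⟨c, m, _, h2, h3⟩
  · exact Or.inl h
  · exact Or.inr ⟨c, m, h2.le, h3⟩

theorem finite_wk [Fintype V] (G : SimpleGraph V) (j : ι → ℕ) :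
    {x : Obj ι V | Wk G j x}.Finite := by
  have hfin : Finite (V × (∀ c : ι, Fin (j c + 1) → V)) := inferInstance
  refine Set.Finite.of_injOn (f := fun x : Obj ι V =>
    ((x.1, fun c m => x.2 c m) : V × (∀ c : ι, Fin (j c + 1) → V))) (t := Set.univ)
    (fun _ _ => Set.mem_univ _) ?_ Set.finite_univ
  intro x hx y hy h
  have hx' : Wk G j x := hx
  have hy' : Wk G j y := hy
  rw [← hx'.can, ← hy'.can, tr_eq_iff]
  simp only [Prod.mk.injEq] at h
  refine ⟨h.1, fun c m hm => ?_⟩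
  have h1 := congrFun (congrFun h.2 c) ⟨m, Nat.lt_succ_of_le hm⟩
  exact h1

/-- the finite set of canonical walk systems of type `j` -/
noncomputable def WK [Fintype V] (G : SimpleGraph V) (j : ι → ℕ) : Finset (Obj ι V) :=
  (finite_wk G j).toFinset

@[simp] theorem mem_WK [Fintype V] {G : SimpleGraph V} {j : ι → ℕ} {x : Obj ι V} :
    x ∈ WK G j ↔ Wk G j x := by
  rw [WK, Set.Finite.mem_toFinset]
  rfl

end basic

end Pool.Agent.Helper14.SP
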